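import Mathlib
import Pool.Agent.P.MP_8ee1cf_lc.Defs
import Pool.Agent.P.MP_8ee1cf_lc.Main

namespace Pool.Agent.Results.MP_8ee1cf_lc.EffectiveTestSets

open Pool.Agent.P.MP_8ee1cf_lc

/-- There is an algorithm that, given an indexed grammar, outputs a test set for its language. -/
theorem result : ∃ f : Grammar → List (List ℕ), Computable f ∧
    ∀ G : Grammar, IsTestSet (f G) (language G) :=
  effective

end Pool.Agent.Results.MP_8ee1cf_lc.EffectiveTestSets
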