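import Mathlib
import Pool.Agent.P.MP_8ee1cf_lc.Defs
import Pool.Agent.P.MP_8ee1cf_lc.EB.Defs
import Pool.Agent.P.MP_8ee1cf_lc.EB.Main

namespace Pool.Agent.Results.MP_8ee1cf_lc.ExplicitBound

open Pool.Agent.P.MP_8ee1cf_lc Pool.Agent.P.MP_8ee1cf_lc.EB

/-- For every indexed grammar the words of its language of length at most
`ack (162 n + 33) s` form a test set, where `s` is the size of the grammar and `n` the number
of nonterminals in right-hand sides of index-consuming rules. -/
theorem result (G : Grammar) : ∃ F : List (List ℕ),
    (∀ w, w ∈ F ↔ w ∈ language G ∧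
      w.length ≤ ack (162 * (popNonterminals G).card + 33) (size G)) ∧
    IsTestSet F (language G) :=
  short_words_test G

end Pool.Agent.Results.MP_8ee1cf_lc.ExplicitBound
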