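import Mathlib
import Pool.Agent.P.MP_8ee1cf_lc.Defs
import Pool.Agent.P.MP_8ee1cf_lc.TW.Defs
import Pool.Agent.P.MP_8ee1cf_lc.TW.Main

namespace Pool.Agent.Results.MP_8ee1cf_lc.TwoWayFiniteValued

open Pool.Agent.P.MP_8ee1cf_lc Pool.Agent.P.MP_8ee1cf_lc.TW

/-- There is an algorithm that, given an indexed grammar and numbers `n`, `k`, outputs a finite
subset of the language that tests `k`-valued agreement of two-way transducers with `n` states. -/
theorem result : ∃ f : Grammar × ℕ × ℕ → List (List ℕ), Computable f ∧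
    ∀ (G : Grammar) (n k : ℕ), IsTwoWayTestSet n k (f (G, n, k)) (language G) :=
  effective_tw

end Pool.Agent.Results.MP_8ee1cf_lc.TwoWayFiniteValued
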